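import Mathlib
import Pool.Agent.TH796.AL.Stms
import Pool.Agent.TH796.AL.Lem
import Pool.Agent.TH932.S2.Fix

set_option autoImplicit false

/-!
# Project AL (helper796), job FIXA

The subspace theorem for germs: coordinates at the finite places, linear forms with coefficients in
a real number field at the real place.
-/

namespace Pool.Agent.TH928.AL

open Filter Topology Pool.Agent.TH932.Abs Pool.Agent.TH932.Germs Pool.Agent.TH932.Chi
  Pool.Agent.TH796.AL
open Pool.Agent.TH932.S2.Fix (UN ee UN_ge UN_le ee_le ee_ge zpow_split dvd_place gm_lin prod_le)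

variable {m : ℕ} (B : Base m)

/-- the product of the divisors -/
noncomputable def bb (H ε Λ : ℝ) (w : Fin m → ℝ) : ℤ :=
  ∏ v, (B.P v : ℤ) ^ ee (B.P v) H ε Λ (w v)

/-- the size at the real place -/
noncomputable def AA (n : ℕ) (H ε Λ w : ℝ) : ℝ :=
  Real.exp (((m + 1) * n + 1) * ε * Λ + ∑ v, UN (B.P v) H Λ * Real.log (B.P v) - w * Λ)

lemma int_place {H ε Λ t : ℝ} (h : 0 ≤ (H + t - ε) * Λ) {a : ℚ} {d c : ℤ} {k : Fin m → ℤ}
    (h1 : (d : ℚ) * a = (∏ i, (B.P i : ℚ) ^ k i) * c)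
    (h2 : ∀ i, (t - ε) * Λ ≤ k i * Real.log (B.P i)) {D : ℤ} (hD : d ∣ D) :
    ∃ x : ℤ, (x : ℚ) = D * (∏ v, (B.P v : ℚ) ^ UN (B.P v) H Λ) * a := by
  obtain ⟨D', rfl⟩ := hD
  have aux : ∀ v, 0 ≤ (UN (B.P v) H Λ : ℤ) + k v := by
    intro v
    have hlb := B.log_pos v
    have h4 := UN_ge (B.two v) H Λ
    have h3 := h2 v
    have h5 : (0 : ℝ) ≤ ((UN (B.P v) H Λ : ℝ) + k v) * Real.log (B.P v) := by nlinarith
    have h6 : (0 : ℝ) ≤ (UN (B.P v) H Λ : ℝ) + k v := nonneg_of_mul_nonneg_left h5 hlb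
    exact_mod_cast h6
  have e : (∏ v, (B.P v : ℚ) ^ UN (B.P v) H Λ) * ∏ v, (B.P v : ℚ) ^ k v
      = ∏ v, (B.P v : ℚ) ^ ((UN (B.P v) H Λ : ℤ) + k v).toNat := by
    rw [← Finset.prod_mul_distrib]
    exact Finset.prod_congr rfl fun v _ => zpow_split (B.two v) _ _ (aux v)
  refine ⟨D' * (∏ v, (B.P v : ℤ) ^ ((UN (B.P v) H Λ : ℤ) + k v).toNat) * c, ?_⟩
  push_cast
  rw [← e]
  linear_combination (-(D' : ℚ) * ∏ v, (B.P v : ℚ) ^ UN (B.P v) H Λ) * h1

lemma prod_le2 {n : ℕ} {ε Λ : ℝ} (d : Fin m → Fin n → ℤ)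
    (hd : ∀ v i, |(d v i : ℝ)| ≤ Real.exp (ε * Λ)) :
    |((∏ v, ∏ i, d v i : ℤ) : ℝ)| ≤ Real.exp (m * n * ε * Λ) := by
  rw [Int.cast_prod, Finset.abs_prod]
  calc ∏ v, |((∏ i, d v i : ℤ) : ℝ)| ≤ ∏ _v : Fin m, Real.exp (n * ε * Λ) :=
        Finset.prod_le_prod (fun i _ => abs_nonneg _) (fun v _ => prod_le (d v) (hd v))
    _ = Real.exp (m * n * ε * Λ) := by
        rw [Finset.prod_const, Finset.card_univ, Fintype.card_fin, ← Real.exp_nat_mul]
        ring_nf

lemma prod_exp (H Λ : ℝ) : (∏ v, (B.P v : ℝ) ^ UN (B.P v) H Λ)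
    = Real.exp (∑ v, UN (B.P v) H Λ * Real.log (B.P v)) := by
  rw [Real.exp_sum]
  refine Finset.prod_congr rfl fun v _ => ?_
  rw [← Real.rpow_natCast, Real.rpow_def_of_pos (B.r0 v), mul_comm]

variable {B}

lemma step {n : ℕ} {H ε Λ : ℝ} (hΛ : 0 ≤ Λ) (C : Fin n → Fin n → ℝ)
    (w : Fin m → Fin n → ℝ) (wI t : Fin n → ℝ)
    (hH : ∀ v i, |w v i| + ε ≤ H) (hH' : ∀ i, |t i| + ε ≤ H) (a : Fin n → ℚ)
    (hS : ∀ j, RS B Λ ε (t j) (a j))
    (hv : ∀ v i, Rb (B.P v) (Pool.Agent.TH932.Germs.cop (B.P v)) Λ ε (w v i) (a i))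
    (hI : ∀ i, |∑ j, C i j * (a j : ℝ)| ≤ Real.exp (-(wI i - ε) * Λ)) :
    ∃ (D : ℤ) (x : Fin n → ℤ), D ≠ 0 ∧
      (∀ j, (x j : ℚ) = D * (∏ v, (B.P v : ℚ) ^ UN (B.P v) H Λ) * a j) ∧
      (∀ l, |∑ j, C l j * (x j : ℝ)| ≤ AA B n H ε Λ (wI l)) ∧
      ∀ l, bb B H ε Λ (fun v => w v l) ∣ x l := by
  choose d c k hd0 hd1 hd2 hd3 using hS
  choose dP eP mP kP hP0 hP1 hP2 hP3 hP4 using hv
  set D : ℤ := (∏ j, d j) * (∏ v, ∏ j, dP v j) with hD
  have hD0 : D ≠ 0 := by
    rw [hD]
    refine mul_ne_zero ?_ ?_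
    · exact Finset.prod_ne_zero_iff.2 fun j _ => hd0 j
    · exact Finset.prod_ne_zero_iff.2 fun v _ => Finset.prod_ne_zero_iff.2 fun j _ => hP0 v j
  have hDd : ∀ j, d j ∣ D := fun j =>
    (Finset.dvd_prod_of_mem d (Finset.mem_univ j)).mul_right _
  have hDP : ∀ v j, dP v j ∣ D := fun v j =>
    ((Finset.dvd_prod_of_mem (dP v) (Finset.mem_univ j)).trans
      (Finset.dvd_prod_of_mem (fun v => ∏ j, dP v j) (Finset.mem_univ v))).mul_left _
  have hDle : |(D : ℝ)| ≤ Real.exp ((m + 1) * n * ε * Λ) := by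
    have h1 := prod_le d hd1
    have h2 := prod_le2 dP hP1
    rw [hD, Int.cast_mul, abs_mul]
    calc |((∏ j, d j : ℤ) : ℝ)| * |((∏ v, ∏ j, dP v j : ℤ) : ℝ)|
        ≤ Real.exp (n * ε * Λ) * Real.exp (m * n * ε * Λ) := by gcongr
      _ = Real.exp ((m + 1) * n * ε * Λ) := by
        rw [← Real.exp_add]; ring_nf
  have hnn : ∀ v i, 0 ≤ (H + w v i - ε) * Λ := by
    intro v i
    apply mul_nonneg _ hΛ
    linarith [hH v i, neg_abs_le (w v i)]
  have hnn' : ∀ i, 0 ≤ (H + t i - ε) * Λ := by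
    intro i
    apply mul_nonneg _ hΛ
    linarith [hH' i, neg_abs_le (t i)]
  have hx : ∀ j, ∃ x : ℤ, (x : ℚ) = D * (∏ v, (B.P v : ℚ) ^ UN (B.P v) H Λ) * a j :=
    fun j => int_place B (hnn' j) (hd2 j) (hd3 j) (hDd j)
  choose x hx using hx
  refine ⟨D, x, hD0, hx, ?_, ?_⟩
  · intro l
    have hxr : ∀ j, (x j : ℝ)
        = D * (∏ v, (B.P v : ℝ) ^ UN (B.P v) H Λ) * (a j : ℝ) := by
      intro j
      have := congrArg (fun x : ℚ => (x : ℝ)) (hx j)
      push_cast at this
      exact this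
    have h2 : ∑ j, C l j * (x j : ℝ)
        = D * (∏ v, (B.P v : ℝ) ^ UN (B.P v) H Λ) * ∑ j, C l j * (a j : ℝ) := by
      rw [Finset.mul_sum]
      apply Finset.sum_congr rfl
      intro j _
      rw [hxr]; ring
    rw [h2, abs_mul, abs_mul, prod_exp, abs_of_pos (Real.exp_pos _)]
    calc |(D : ℝ)| * Real.exp (∑ v, UN (B.P v) H Λ * Real.log (B.P v))
          * |∑ j, C l j * (a j : ℝ)|
        ≤ Real.exp ((m + 1) * n * ε * Λ)
          * Real.exp (∑ v, UN (B.P v) H Λ * Real.log (B.P v))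
          * Real.exp (-(wI l - ε) * Λ) := by
          gcongr
          exact hI l
      _ = AA B n H ε Λ (wI l) := by
        unfold AA
        rw [← Real.exp_add, ← Real.exp_add]
        ring_nf
  · intro l
    unfold bb
    refine Finset.prod_dvd_of_coprime ?_ ?_
    · intro u _ v _ huv
      exact IsCoprime.pow (B.cop u v huv)
    · intro v _
      refine dvd_place (B.two v) (hnn v l) (hP2 v l) (hP3 v l) (hP4 v l) (hDP v l)
        (R := ∏ u ∈ Finset.univ.erase v, (B.P u : ℤ) ^ UN (B.P u) H Λ) ?_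
      rw [hx, ← Finset.mul_prod_erase _ _ (Finset.mem_univ v)]
      push_cast
      ring

variable (B)

/-- the diagonal matrix -/
noncomputable def Bm {n : ℕ} (H ε Λ : ℝ) (w : Fin m → Fin n → ℝ) : Matrix (Fin n) (Fin n) ℤ :=
  Matrix.diagonal fun l => bb B H ε Λ fun v => w v l

lemma bb_ne (H ε Λ : ℝ) (w : Fin m → ℝ) : bb B H ε Λ w ≠ 0 := by
  unfold bb
  refine Finset.prod_ne_zero_iff.2 fun v _ => pow_ne_zero _ ?_
  have := B.pos v
  exact_mod_cast this.ne'

lemma log_bb (H ε Λ : ℝ) (w : Fin m → ℝ) :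
    Real.log (bb B H ε Λ w : ℝ) = ∑ v, ee (B.P v) H ε Λ (w v) * Real.log (B.P v) := by
  unfold bb
  push_cast
  rw [Real.log_prod]
  · exact Finset.sum_congr rfl fun v _ => by rw [Real.log_pow]
  · intro v _
    exact pow_ne_zero _ (B.r0 v).ne'

lemma log_det {n : ℕ} (H ε Λ : ℝ) (w : Fin m → Fin n → ℝ) :
    Real.log |((Bm B H ε Λ w).det : ℝ)|
      = ∑ v, ∑ l, ee (B.P v) H ε Λ (w v l) * Real.log (B.P v) := by
  unfold Bm
  rw [Matrix.det_diagonal, Real.log_abs, Int.cast_prod, Real.log_prod]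
  · rw [Finset.sum_comm]
    exact Finset.sum_congr rfl fun l _ => log_bb B H ε Λ _
  · intro l _
    have := bb_ne B H ε Λ (fun v => w v l)
    exact_mod_cast this

lemma det_ne {n : ℕ} (H ε Λ : ℝ) (w : Fin m → Fin n → ℝ) : (Bm B H ε Λ w).det ≠ 0 := by
  unfold Bm
  rw [Matrix.det_diagonal]
  exact Finset.prod_ne_zero_iff.2 fun l _ => bb_ne B H ε Λ _

variable {B}

lemma size_ok {n : ℕ} {H ε Λ σ c : ℝ} (hε : 0 < ε) (hΛ : 1 ≤ Λ)
    (w : Fin m → Fin n → ℝ) (wI : Fin n → ℝ) (hH : ∀ v i, |w v i| + ε ≤ H)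
    (hHI : ∀ i, |wI i| + ε ≤ H) (hH0 : 0 ≤ H)
    (hσ : σ = ∑ v, ∑ i, w v i + ∑ i, wI i) (hε1 : 4 * ((m + 1) * (n + 1) ^ 2) * ε = σ)
    (hc : ((m + 1) * n + 1) * ε + (2 * n + 1) * m * H + H
      + (n + 1) * ∑ v, Real.log (B.P v) ≤ c)
    (hΛ1 : 2 * n * (∑ v, Real.log (B.P v)) ≤ σ * Λ) :
    Pool.Agent.TH286.GT.SizeO c (σ / 4) Λ (Bm B H ε Λ w) (fun l => AA B n H ε Λ (wI l)) := by
  have hΛ0 : 0 ≤ Λ := by linarith
  have hHΛ : 0 ≤ H * Λ := mul_nonneg hH0 hΛ0
  have hnn : ∀ v i, 0 ≤ (H + w v i - ε) * Λ := by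
    intro v i
    apply mul_nonneg _ hΛ0
    linarith [hH v i, neg_abs_le (w v i)]
  have hup : ∀ v i, (w v i - ε) * Λ ≤ H * Λ := by
    intro v i
    apply mul_le_mul_of_nonneg_right _ hΛ0
    linarith [hH v i, le_abs_self (w v i)]
  have hn0 : (0 : ℝ) ≤ n := Nat.cast_nonneg n
  have hm0 : (0 : ℝ) ≤ m := Nat.cast_nonneg m
  set S : ℝ := ∑ v, Real.log (B.P v) with hS
  have hS0 : 0 ≤ S := Finset.sum_nonneg fun v _ => (B.log_pos v).le
  set T : ℝ := ∑ v, UN (B.P v) H Λ * Real.log (B.P v) with hT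
  have hT0 : 0 ≤ T := Finset.sum_nonneg fun v _ => by
    have := (B.log_pos v).le
    positivity
  have hT1 : T ≤ m * (H * Λ) + S := by
    calc T ≤ ∑ v : Fin m, (H * Λ + Real.log (B.P v)) :=
          Finset.sum_le_sum fun v _ => UN_le (B.two v) hHΛ
      _ = m * (H * Λ) + S := by
          rw [Finset.sum_add_distrib, Finset.sum_const, Finset.card_univ, Fintype.card_fin,
            nsmul_eq_mul]
  have hcΛ : ((m + 1) * n + 1) * ε * Λ + (2 * n + 1) * m * (H * Λ) + H * Λ + (n + 1) * S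
      ≤ c * Λ := by
    have h1 : (((m + 1) * n + 1) * ε + (2 * n + 1) * m * H + H + (n + 1) * S) * Λ ≤ c * Λ := by
      gcongr
    have h2 : (n + 1) * S ≤ (n + 1) * S * Λ := le_mul_of_one_le_right (by positivity) hΛ
    linarith
  have hε3 : 0 ≤ ((m + 1) * n + 1) * ε * Λ := by positivity
  have hup2 : ∑ v, ∑ l, (ee (B.P v) H ε Λ (w v l) : ℝ) * Real.log (B.P v)
      ≤ n * T + m * n * (H * Λ) := by
    calc ∑ v, ∑ l, (ee (B.P v) H ε Λ (w v l) : ℝ) * Real.log (B.P v)
        ≤ ∑ v : Fin m, ∑ _l : Fin n, (UN (B.P v) H Λ * Real.log (B.P v) + H * Λ) := by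
          refine Finset.sum_le_sum fun v _ => Finset.sum_le_sum fun l _ => ?_
          have h1 := ee_le (B.two v) (hnn v l)
          have h2 := hup v l
          linarith
      _ = n * T + m * n * (H * Λ) := by
          simp only [Finset.sum_const, Finset.card_univ, Fintype.card_fin, nsmul_eq_mul]
          rw [← Finset.mul_sum, Finset.sum_add_distrib, Finset.sum_const, Finset.card_univ,
            Fintype.card_fin, nsmul_eq_mul]
          ring
  have hlow : n * T + (∑ v, ∑ l, w v l) * Λ - m * n * ε * Λ - n * S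
      ≤ ∑ v, ∑ l, (ee (B.P v) H ε Λ (w v l) : ℝ) * Real.log (B.P v) := by
    calc n * T + (∑ v, ∑ l, w v l) * Λ - m * n * ε * Λ - n * S
        = ∑ v : Fin m, ∑ l : Fin n,
          (UN (B.P v) H Λ * Real.log (B.P v) + (w v l - ε) * Λ - Real.log (B.P v)) := by
          simp only [sub_mul]
          simp only [Finset.sum_sub_distrib, Finset.sum_add_distrib, Finset.sum_const,
            Finset.card_univ, Fintype.card_fin, nsmul_eq_mul, ← Finset.mul_sum, ← Finset.sum_mul]
          ring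
      _ ≤ _ := Finset.sum_le_sum fun v _ => Finset.sum_le_sum fun l _ =>
          ee_ge (B.two v) H ε Λ (w v l)
  have hmH : 0 ≤ m * (H * Λ) := by positivity
  refine ⟨?_, fun l => Real.exp_pos _, ?_, ?_⟩
  · rw [log_det]
    refine hup2.trans ?_
    have h1 : n * T ≤ n * (m * (H * Λ) + S) := by gcongr
    nlinarith
  · intro l
    unfold AA
    rw [Real.log_exp, abs_le]
    have h1 : wI l * Λ ≤ H * Λ := by
      apply mul_le_mul_of_nonneg_right _ hΛ0
      linarith [hHI l, le_abs_self (wI l)]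
    have h2 : -(H * Λ) ≤ wI l * Λ := by
      rw [← neg_mul]
      apply mul_le_mul_of_nonneg_right _ hΛ0
      linarith [hHI l, neg_abs_le (wI l)]
    have h3 : 0 ≤ n * (m * (H * Λ)) := by positivity
    have h4 : 0 ≤ n * S := by positivity
    constructor
    · nlinarith
    · nlinarith
  · rw [log_det]
    refine le_trans ?_ hlow
    have hA : ∑ l, Real.log (AA B n H ε Λ (wI l))
        = n * (((m + 1) * n + 1) * ε * Λ + T) - (∑ l, wI l) * Λ := by
      unfold AA
      simp only [Real.log_exp]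
      rw [Finset.sum_sub_distrib, Finset.sum_const, Finset.card_univ, Fintype.card_fin,
        nsmul_eq_mul, Finset.sum_mul]
    rw [hA]
    have e1 : (∑ v, ∑ l, w v l) * Λ + (∑ l, wI l) * Λ = σ * Λ := by
      rw [hσ]; ring
    have e2 : n * ((m + 1) * n + 1) * ε * Λ + m * n * ε * Λ ≤ 1 / 4 * (σ * Λ) := by
      rw [← hε1]
      have h0 : 0 ≤ ε * Λ := by positivity
      have h1 : n * ((m + 1) * n + 1) + m * n ≤ ((m : ℝ) + 1) * (n + 1) ^ 2 := by nlinarith
      nlinarith
    linarith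

lemma gr_sum {ι : Type*} (s : Finset ι) (f : ι → ℕ → ℝ) :
    ∑ i ∈ s, gr (f i) = gr (fun r => ∑ i ∈ s, f i r) := by
  classical
  induction s using Finset.induction_on with
  | empty => simp [gr_zero]
  | insert a s ha ih =>
    rw [Finset.sum_insert ha, ih, gr_add]
    congr 1
    funext r
    rw [Finset.sum_insert ha]

variable (B)

/-- the numbers `lam` -/
def lam (O : Type) [CommRing O] (n : ℕ) (q : Fin (m * n)) (l : Fin n) : O :=
  if (finProdFinEquiv.symm q).2 = l then ((B.P (finProdFinEquiv.symm q).1 : ℕ) : O) else 1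

/-- the exponents -/
noncomputable def kk {n : ℕ} (H ε Λ : ℝ) (w : Fin m → Fin n → ℝ) (q : Fin (m * n)) : ℕ :=
  ee (B.P (finProdFinEquiv.symm q).1) H ε Λ
    (w (finProdFinEquiv.symm q).1 (finProdFinEquiv.symm q).2)

lemma bet_eq (O : Type) [CommRing O] {n : ℕ} (H ε Λ : ℝ) (w : Fin m → Fin n → ℝ) (l : Fin n) :
    Pool.Agent.TH286.GT.bet (lam B O n) (kk B H ε Λ w) l
      = ((bb B H ε Λ (fun v => w v l) : ℤ) : O) := by
  unfold Pool.Agent.TH286.GT.bet lam kk bb
  rw [← Equiv.prod_comp finProdFinEquiv]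
  simp only [Equiv.symm_apply_apply]
  rw [Fintype.prod_prod_type]
  push_cast
  refine Finset.prod_congr rfl fun v _ => ?_
  rw [Finset.prod_eq_single l]
  · rw [if_pos rfl]
  · intro l' _ hl'
    rw [if_neg hl', one_pow]
  · intro h
    exact absurd (Finset.mem_univ l) h

lemma lat (O : Type) [CommRing O] {n : ℕ} (H ε Λ : ℝ) (w : Fin m → Fin n → ℝ) :
    Pool.Agent.TH286.GT.Lat (1 : Matrix (Fin n) (Fin n) O)
      (Pool.Agent.TH286.GT.bet (lam B O n) (kk B H ε Λ w)) (Bm B H ε Λ w) := by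
  refine ⟨det_ne B H ε Λ w, ?_⟩
  rw [one_mul, mul_one]
  unfold Bm
  rw [Matrix.diagonal_map (map_zero _)]
  congr 1
  funext l
  rw [bet_eq]
  rfl

variable {B}

theorem fixa (hsub : ∀ (O : Type) [CommRing O] [IsDomain O] [Module.Free ℤ O]
    [Module.Finite ℤ O] (φ : O →+* ℂ), Pool.Agent.TH286.GT.SubOStmt O φ) : FixAStmt := by
  intro m B L hL F hF n x z w wI hind hli hz hv hI hS
  by_contra hcon
  push Not at hcon
  have hn : 1 ≤ n := by
    rcases Nat.eq_zero_or_pos n with h0 | h0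
    · subst h0
      simp at hcon
    · exact h0
  have : NumberField F := { to_charZero := inferInstance, to_finiteDimensional := hF }
  -- the coefficients
  have hz' : ∀ i, ∃ c : Fin n → F, ∑ j, c j • rho (x j) = z i := fun i =>
    (Submodule.mem_span_range_iff_exists_fun F).1 (hz i)
  choose c hc using hz'
  obtain ⟨N, hN⟩ := IsLocalization.exist_integer_multiples_of_finite
    (nonZeroDivisors (NumberField.RingOfIntegers F)) (fun q : Fin n × Fin n => c q.1 q.2)
  have hN0 : (N : NumberField.RingOfIntegers F) ≠ 0 := nonZeroDivisors.ne_zero N.2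
  have hN' : ∀ i j, ∃ M : NumberField.RingOfIntegers F,
      algebraMap (NumberField.RingOfIntegers F) F M
        = algebraMap (NumberField.RingOfIntegers F) F (N : NumberField.RingOfIntegers F)
          * c i j := by
    intro i j
    obtain ⟨M, hM⟩ := hN (i, j)
    refine ⟨M, ?_⟩
    rw [hM, Algebra.smul_def]
  choose M0 hM0 using hN'
  have hinj : Function.Injective (algebraMap (NumberField.RingOfIntegers F) F) :=
    IsFractionRing.injective _ _
  have hNF : algebraMap (NumberField.RingOfIntegers F) F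
      (N : NumberField.RingOfIntegers F) ≠ 0 := by
    intro h
    exact hN0 (hinj (by rw [h, map_zero]))
  set ψ : NumberField.RingOfIntegers F →+* ℝ :=
    (algebraMap F ℝ).comp (algebraMap (NumberField.RingOfIntegers F) F) with hψ
  set φ : NumberField.RingOfIntegers F →+* ℂ := Complex.ofRealHom.comp ψ with hφ
  have hlin : ∀ i, ∑ j, (algebraMap (NumberField.RingOfIntegers F) F (M0 i j)) • rho (x j)
      = (algebraMap (NumberField.RingOfIntegers F) F (N : NumberField.RingOfIntegers F))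
        • z i := by
    intro i
    rw [← hc, Finset.smul_sum]
    apply Finset.sum_congr rfl
    intro j _
    rw [hM0, mul_smul]
  -- the determinant
  have hdet : (Matrix.of M0).det ≠ 0 := by
    intro h
    obtain ⟨u, hu0, hu⟩ := Matrix.exists_vecMul_eq_zero_iff.2 h
    have h1 : ∑ i, (algebraMap (NumberField.RingOfIntegers F) F (u i)
        * algebraMap (NumberField.RingOfIntegers F) F (N : NumberField.RingOfIntegers F))
          • z i = 0 := by
      calc ∑ i, (algebraMap (NumberField.RingOfIntegers F) F (u i)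
        * algebraMap (NumberField.RingOfIntegers F) F (N : NumberField.RingOfIntegers F)) • z i
          = ∑ i, ∑ j, (algebraMap (NumberField.RingOfIntegers F) F (u i * M0 i j))
            • rho (x j) := by
            apply Finset.sum_congr rfl
            intro i _
            rw [mul_smul, ← hlin, Finset.smul_sum]
            apply Finset.sum_congr rfl
            intro j _
            rw [← mul_smul, map_mul]
        _ = ∑ j, (algebraMap (NumberField.RingOfIntegers F) F (∑ i, u i * M0 i j))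
            • rho (x j) := by
            rw [Finset.sum_comm]
            apply Finset.sum_congr rfl
            intro j _
            rw [map_sum, Finset.sum_smul]
        _ = 0 := by
            apply Finset.sum_eq_zero
            intro j _
            have h2 : (∑ i, u i * M0 i j) = 0 := by
              have := congrFun hu j
              simpa [Matrix.vecMul, dotProduct] using this
            rw [h2, map_zero, zero_smul]
    have h2 := Fintype.linearIndependent_iff.1 hli _ h1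
    apply hu0
    funext i
    have h3 := (mul_eq_zero.1 (h2 i)).resolve_right hNF
    exact hinj (by rw [h3, Pi.zero_apply, map_zero])
  choose a ha using fun i => gm_surj (x i)
  choose t ht using hS
  -- the values of the forms
  have hval : ∀ i, gr (fun r => ∑ j, ψ (M0 i j) * (a j r : ℝ)) ∈ SR L (wI i) := by
    intro i
    have h1 : gr (fun r => ∑ j, ψ (M0 i j) * (a j r : ℝ))
        = algebraMap ℝ HR (ψ (N : NumberField.RingOfIntegers F)) * z i := by
      have h2 := hlin i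
      rw [Algebra.smul_def] at h2
      refine Eq.trans ?_ h2
      rw [← gr_sum]
      apply Finset.sum_congr rfl
      intro j _
      rw [← ha, rho_gm, Algebra.smul_def]
      rfl
    rw [h1]
    have h3 := SR_mul hL (SR_cst hL (ψ (N : NumberField.RingOfIntegers F))) (hI i)
    rw [zero_add] at h3
    exact h3
  -- parameters
  set σ : ℝ := ∑ v, ∑ i, w v i + ∑ i, wI i with hσ
  set ε : ℝ := σ / (4 * ((m + 1) * (n + 1) ^ 2)) with hε
  have hε0 : 0 < ε := by positivity
  have hε1 : 4 * ((m + 1) * (n + 1) ^ 2) * ε = σ := by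
    rw [hε]; field_simp
  have s1 : 0 ≤ ∑ v, ∑ i, |w v i| :=
    Finset.sum_nonneg fun v _ => Finset.sum_nonneg fun i _ => abs_nonneg _
  have s2 : 0 ≤ ∑ i, |wI i| := Finset.sum_nonneg fun i _ => abs_nonneg _
  have s3 : 0 ≤ ∑ i, |t i| := Finset.sum_nonneg fun i _ => abs_nonneg _
  set H : ℝ := ε + ∑ v, ∑ i, |w v i| + ∑ i, |wI i| + ∑ i, |t i| with hH
  have hH1 : ∀ v i, |w v i| + ε ≤ H := by
    intro v i
    have h1 : |w v i| ≤ ∑ i, |w v i| :=
      Finset.single_le_sum (f := fun i => |w v i|) (fun i _ => abs_nonneg _) (Finset.mem_univ i)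
    have h2 : ∑ i, |w v i| ≤ ∑ v, ∑ i, |w v i| :=
      Finset.single_le_sum (f := fun v => ∑ i, |w v i|)
        (fun v _ => Finset.sum_nonneg fun i _ => abs_nonneg _) (Finset.mem_univ v)
    linarith
  have hHI : ∀ i, |wI i| + ε ≤ H := by
    intro i
    have h1 : |wI i| ≤ ∑ i, |wI i| :=
      Finset.single_le_sum (f := fun i => |wI i|) (fun i _ => abs_nonneg _) (Finset.mem_univ i)
    linarith
  have hH2 : ∀ i, |t i| + ε ≤ H := by
    intro i
    have h1 : |t i| ≤ ∑ i, |t i| :=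
      Finset.single_le_sum (f := fun i => |t i|) (fun i _ => abs_nonneg _) (Finset.mem_univ i)
    linarith
  have hH0 : 0 ≤ H := by linarith
  set cc : ℝ := ((m + 1) * n + 1) * ε + (2 * n + 1) * m * H + H
      + (n + 1) * ∑ v, Real.log (B.P v) + 1 with hcc
  have hS0 : 0 ≤ ∑ v, Real.log (B.P v) := Finset.sum_nonneg fun v _ => (B.log_pos v).le
  have hc1 : 1 ≤ cc := by
    have h1 : 0 ≤ ((m + 1) * n + 1) * ε := by positivity
    have h2 : 0 ≤ (2 * n + 1) * m * H := by positivity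
    have h3 : 0 ≤ (n + 1) * ∑ v, Real.log (B.P v) := by positivity
    linarith
  -- the good indices
  have hev : ∀ᶠ r in (UU : Filter ℕ), (∀ j, RS B (L r) ε (t j) (a j r)) ∧
      (∀ v i, Rb (B.P v) (Pool.Agent.TH932.Germs.cop (B.P v)) (L r) ε (w v i) (a i r)) ∧
      (∀ i, |∑ j, ψ (M0 i j) * (a j r : ℝ)| ≤ Real.exp (-(wI i - ε) * L r)) ∧
      (∀ j, a j r ≠ 0) ∧ 1 ≤ L r ∧ 2 * n * (∑ v, Real.log (B.P v)) ≤ σ * L r := by
    have e1 : ∀ᶠ r in (UU : Filter ℕ), ∀ j, RS B (L r) ε (t j) (a j r) := by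
      rw [Filter.eventually_all]
      intro j
      have := ht j
      rw [← ha, mem_SS] at this
      exact this ε hε0
    have e2 : ∀ᶠ r in (UU : Filter ℕ), ∀ v i,
        Rb (B.P v) (Pool.Agent.TH932.Germs.cop (B.P v)) (L r) ε (w v i) (a i r) := by
      rw [Filter.eventually_all]
      intro v
      rw [Filter.eventually_all]
      intro i
      have := hv v i
      unfold Sv at this
      rw [← ha, mem_SS] at this
      exact this ε hε0
    have e2' : ∀ᶠ r in (UU : Filter ℕ), ∀ i,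
        |∑ j, ψ (M0 i j) * (a j r : ℝ)| ≤ Real.exp (-(wI i - ε) * L r) := by
      rw [Filter.eventually_all]
      intro i
      exact mem_SR.1 (hval i) ε hε0
    have e3 : ∀ᶠ r in (UU : Filter ℕ), ∀ j, a j r ≠ 0 := by
      rw [Filter.eventually_all]
      intro j
      rw [← gm_ne_zero, ha]
      intro h0
      have h1 := hind (Pi.single j 1) (by
        apply Finset.sum_eq_zero
        intro i _
        by_cases hij : i = j
        · subst hij; rw [h0, mul_zero]
        · rw [Pi.single_eq_of_ne hij, Int.cast_zero, zero_mul]) j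
      rw [Pi.single_eq_same] at h1
      exact one_ne_zero h1
    have e4 : ∀ᶠ r in (UU : Filter ℕ), 1 ≤ L r := ev_of_atTop (hL.eventually_ge_atTop 1)
    have e5 : ∀ᶠ r in (UU : Filter ℕ), 2 * n * (∑ v, Real.log (B.P v)) / σ ≤ L r :=
      ev_of_atTop (hL.eventually_ge_atTop _)
    filter_upwards [e1, e2, e2', e3, e4, e5] with r h1 h2 h2' h3 h4 h5
    refine ⟨h1, h2, h2', h3, h4, ?_⟩
    rw [div_le_iff₀ hcon] at h5
    linarith
  obtain ⟨y, hy⟩ := exists_surjective_nat (Fin n → ℤ)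
  have hex : ∀ s : ℕ, ∃ r : ℕ, ((∀ j, RS B (L r) ε (t j) (a j r)) ∧
      (∀ v i, Rb (B.P v) (Pool.Agent.TH932.Germs.cop (B.P v)) (L r) ε (w v i) (a i r)) ∧
      (∀ i, |∑ j, ψ (M0 i j) * (a j r : ℝ)| ≤ Real.exp (-(wI i - ε) * L r)) ∧
      (∀ j, a j r ≠ 0) ∧ 1 ≤ L r ∧ 2 * n * (∑ v, Real.log (B.P v)) ≤ σ * L r) ∧ s ≤ r ∧
      ∀ k < s, y k ≠ 0 → ∑ l, (y k l : ℚ) * a l r ≠ 0 := by
    intro s
    have e1 : ∀ᶠ r in (UU : Filter ℕ), s ≤ r := ev_of_atTop (eventually_ge_atTop s)
    have e2 : ∀ᶠ r in (UU : Filter ℕ), ∀ k ∈ Set.Iio s, y k ≠ 0 →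
        ∑ l, (y k l : ℚ) * a l r ≠ 0 := by
      rw [Filter.eventually_all_finite (Set.finite_Iio s)]
      intro k _
      by_cases h0 : y k = 0
      · exact Eventually.of_forall fun r h => absurd h0 h
      · have h1 : gm (fun r => ∑ l, (y k l : ℚ) * a l r) ≠ 0 := by
          rw [← gm_lin]
          simp only [ha]
          intro h2
          exact h0 (funext (hind (y k) h2))
        rw [gm_ne_zero] at h1
        filter_upwards [h1] with r hr _ using hr
    obtain ⟨r, h1, h2, h3⟩ := (hev.and (e1.and e2)).exists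
    exact ⟨r, h1, h2, h3⟩
  choose mm hmm hms hmy using hex
  have hstep := fun s => step (B := B) (H := H) (ε := ε) (Λ := L (mm s))
    (le_trans zero_le_one (hmm s).2.2.2.2.1) (fun i j => ψ (M0 i j)) w wI t hH1 hH2
    (fun j => a j (mm s)) (hmm s).1 (hmm s).2.1 (hmm s).2.2.1
  choose D X hD hX hXI hXd using hstep
  have htend : Tendsto (fun s => L (mm s)) atTop atTop :=
    hL.comp (tendsto_atTop_mono hms tendsto_id)
  have hU0 : ∀ s, (∏ v, (B.P v : ℚ) ^ UN (B.P v) H (L (mm s))) ≠ 0 := fun s =>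
    Finset.prod_ne_zero_iff.2 fun v _ => pow_ne_zero _ (B.q0 v)
  have hdata : Pool.Agent.TH286.GT.DataO φ (Matrix.of M0) (1 : Matrix (Fin n) (Fin n) _)
      (lam B (NumberField.RingOfIntegers F) n) := by
    refine ⟨hdet, fun i j => Complex.ofReal_im _, ?_, ?_⟩
    · rw [Matrix.det_one]
      exact one_ne_zero
    · intro q l
      unfold lam
      split_ifs
      · exact Nat.cast_ne_zero.2 (B.pos _).ne'
      · exact one_ne_zero
  obtain ⟨u, hu0, hu⟩ := hsub (NumberField.RingOfIntegers F) φ n (m * n) hn (Matrix.of M0) 1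
    (lam B (NumberField.RingOfIntegers F) n) hdata cc (σ / 4) hc1 (by positivity)
    (fun s => L (mm s)) htend (fun s => kk B H ε (L (mm s)) w)
    (fun s => Bm B H ε (L (mm s)) w) (fun s => lat B _ H ε (L (mm s)) w)
    (fun s l => AA B n H ε (L (mm s)) (wI l))
    (fun s => size_ok hε0 (hmm s).2.2.2.2.1 w wI hH1 hHI hH0 hσ hε1 (by linarith)
      (hmm s).2.2.2.2.2) X
    (by
      intro s h0
      have h1 := hX s ⟨0, hn⟩
      rw [h0] at h1
      simp only [Pi.zero_apply, Int.cast_zero] at h1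
      have h2 : (D s : ℚ) ≠ 0 := by exact_mod_cast hD s
      exact mul_ne_zero (mul_ne_zero h2 (hU0 s)) ((hmm s).2.2.2.1 ⟨0, hn⟩) h1.symm)
    (by
      intro s
      constructor
      · intro l
        have h1 : φ (∑ j, (Matrix.of M0) l j * ((X s j : ℤ) : NumberField.RingOfIntegers F))
            = ((∑ j, ψ (M0 l j) * (X s j : ℝ) : ℝ) : ℂ) := by
          rw [hφ, RingHom.comp_apply, map_sum]
          simp only [map_mul, map_intCast]
          rfl
        rw [h1, Complex.norm_real, Real.norm_eq_abs]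
        exact hXI s l
      · choose zz hzz using hXd s
        refine ⟨zz, ?_⟩
        funext l
        unfold Bm
        rw [Matrix.mulVec_diagonal]
        exact hzz l)
  obtain ⟨k, rfl⟩ := hy u
  obtain ⟨s, hs1, hs2⟩ := (hu.and_eventually (eventually_gt_atTop k)).exists
  have h1 := hmy s k hs2 hu0
  apply h1
  have h2 : (((∑ l, y k l * X s l : ℤ)) : ℚ) = D s * (∏ v, (B.P v : ℚ) ^ UN (B.P v) H (L (mm s)))
      * ∑ l, (y k l : ℚ) * a l (mm s) := by
    push_cast
    rw [Finset.mul_sum]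
    apply Finset.sum_congr rfl
    intro l _
    rw [hX]; ring
  rw [hs1, Int.cast_zero] at h2
  have h3 : (D s : ℚ) ≠ 0 := by exact_mod_cast hD s
  exact (mul_eq_zero.1 h2.symm).resolve_left (mul_ne_zero h3 (hU0 s))

end Pool.Agent.TH928.AL
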