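import Mathlib
import Pool.Agent.TH598.GV.Defs
import Pool.Agent.TH643.J3412

set_option autoImplicit false

/-!
# Project GV (helper598), job 3413: the fibre inequality
-/

namespace Pool.Agent.TH928.GV

open Finset MeasureTheory
open scoped ComplexConjugate ComplexOrder
open Pool.Agent.TH598.GV (gw)

open Pool.Agent.TH643.J3412 (int_growth poly_growth monomial_int)

variable {P : Type} [Fintype P]

lemma int_pq (p q : MvPolynomial P ℂ) : Integrable (fun ξ : P → ℂ =>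
    MvPolynomial.eval ξ p * conj (MvPolynomial.eval ξ q) * (gw ξ : ℂ)) := by
  obtain ⟨C1, n1, h1⟩ := poly_growth p
  obtain ⟨C2, n2, h2⟩ := poly_growth q
  refine int_growth (fun ξ => MvPolynomial.eval ξ p * conj (MvPolynomial.eval ξ q)) ?_
    (C1 * C2) (n1 + n2) ?_
  · exact (MvPolynomial.continuous_eval p).mul
      (Complex.continuous_conj.comp (MvPolynomial.continuous_eval q))
  · intro ξ
    rw [norm_mul, RCLike.norm_conj, pow_add]
    calc ‖MvPolynomial.eval ξ p‖ * ‖MvPolynomial.eval ξ q‖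
        ≤ (C1 * (1 + ∑ s, ‖ξ s‖ ^ 2) ^ n1) * (C2 * (1 + ∑ s, ‖ξ s‖ ^ 2) ^ n2) :=
          mul_le_mul (h1 ξ) (h2 ξ) (norm_nonneg _) (le_trans (norm_nonneg _) (h1 ξ))
      _ = C1 * C2 * ((1 + ∑ s, ‖ξ s‖ ^ 2) ^ n1 * (1 + ∑ s, ‖ξ s‖ ^ 2) ^ n2) := by ring

lemma int_sq (p : MvPolynomial P ℂ) :
    Integrable (fun ξ : P → ℂ => ‖MvPolynomial.eval ξ p‖ ^ 2 * gw ξ) := by
  have h := (int_pq p p).re
  refine h.congr (Filter.Eventually.of_forall fun ξ => ?_)
  change (MvPolynomial.eval ξ p * conj (MvPolynomial.eval ξ p) * (gw ξ : ℂ)).re = _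
  rw [Complex.mul_conj', Complex.re_mul_ofReal]
  norm_cast

lemma int_mm (α β : P → ℕ) : Integrable (fun ξ : P → ℂ =>
    (∏ s, ξ s ^ α s) * conj (∏ s, ξ s ^ β s) * (gw ξ : ℂ)) := by
  have h := int_pq (∏ s, (MvPolynomial.X s : MvPolynomial P ℂ) ^ α s)
    (∏ s, (MvPolynomial.X s : MvPolynomial P ℂ) ^ β s)
  refine h.congr (Filter.Eventually.of_forall fun ξ => ?_)
  simp only [map_prod, map_pow, MvPolynomial.eval_X]

lemma J_eq [DecidableEq P] {κ : Type} (A : Finset κ) (a : κ → P → ℕ) (ha : Set.InjOn a A)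
    (c : κ → ℂ) :
    ∫ t : P → ℂ, ‖∑ i ∈ A, c i * ∏ s, t s ^ a i s‖ ^ 2 * gw t
      = Real.pi ^ Fintype.card P * ∑ i ∈ A, ‖c i‖ ^ 2 * ∏ s, ((a i s).factorial : ℝ) := by
  have h : ((∫ t : P → ℂ, ‖∑ i ∈ A, c i * ∏ s, t s ^ a i s‖ ^ 2 * gw t : ℝ) : ℂ)
      = ((Real.pi ^ Fintype.card P * ∑ i ∈ A, ‖c i‖ ^ 2 * ∏ s, ((a i s).factorial : ℝ) : ℝ) : ℂ) := by
    rw [← integral_complex_ofReal]
    calc ∫ t : P → ℂ, ((‖∑ i ∈ A, c i * ∏ s, t s ^ a i s‖ ^ 2 * gw t : ℝ) : ℂ)
        = ∫ t : P → ℂ, ∑ i ∈ A, ∑ j ∈ A, (c i * conj (c j)) *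
            ((∏ s, t s ^ a i s) * conj (∏ s, t s ^ a j s) * (gw t : ℂ)) := by
          congr 1
          funext t
          push_cast
          rw [← Complex.mul_conj', map_sum, Finset.sum_mul_sum, Finset.sum_mul]
          refine Finset.sum_congr rfl fun i _ => ?_
          rw [Finset.sum_mul]
          refine Finset.sum_congr rfl fun j _ => ?_
          rw [map_mul]
          ring
      _ = ∑ i ∈ A, ∑ j ∈ A, (c i * conj (c j)) *
            ∫ t : P → ℂ, (∏ s, t s ^ a i s) * conj (∏ s, t s ^ a j s) * (gw t : ℂ) := by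
          rw [integral_finsetSum _ (fun i _ => integrable_finsetSum _
            fun j _ => (int_mm _ _).const_mul _)]
          refine Finset.sum_congr rfl fun i _ => ?_
          rw [integral_finsetSum _ (fun j _ => (int_mm _ _).const_mul _)]
          refine Finset.sum_congr rfl fun j _ => ?_
          rw [integral_const_mul]
      _ = ∑ i ∈ A, ∑ j ∈ A, (c i * conj (c j)) *
            (if a i = a j then (Real.pi : ℂ) ^ Fintype.card P * ∏ s, ((a i s).factorial : ℂ)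
              else 0) := by
          simp only [monomial_int]
      _ = ∑ i ∈ A, (c i * conj (c i)) *
            ((Real.pi : ℂ) ^ Fintype.card P * ∏ s, ((a i s).factorial : ℂ)) := by
          refine Finset.sum_congr rfl fun i hi => ?_
          rw [Finset.sum_eq_single i]
          · rw [if_pos rfl]
          · intro j hj hij
            rw [if_neg (fun h => hij (ha hi hj h).symm), mul_zero]
          · intro h
            exact absurd hi h
      _ = _ := by
          push_cast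
          rw [Finset.mul_sum]
          refine Finset.sum_congr rfl fun i _ => ?_
          rw [Complex.mul_conj']
          ring
  exact_mod_cast h

/-- J2: the fibre inequality in standard coordinates -/
theorem fock_std {P : Type} [Fintype P] [DecidableEq P] (p0 : P) (Q : MvPolynomial P ℂ) :
    0 ≤ ∫ t : P → ℂ, ‖MvPolynomial.eval t Q‖ ^ 2 * (‖t p0‖ ^ 2 - 1) * gw t := by
  have h1 : (fun t : P → ℂ => ‖MvPolynomial.eval t Q‖ ^ 2 * (‖t p0‖ ^ 2 - 1) * gw t)
      = fun t => ‖MvPolynomial.eval t (MvPolynomial.X p0 * Q)‖ ^ 2 * gw t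
        - ‖MvPolynomial.eval t Q‖ ^ 2 * gw t := by
    funext t
    rw [map_mul, MvPolynomial.eval_X, norm_mul]
    ring
  rw [h1, integral_sub (int_sq _) (int_sq _)]
  have e1 : ∀ t : P → ℂ, MvPolynomial.eval t Q = ∑ d ∈ Q.support, Q.coeff d * ∏ s, t s ^ d s :=
    fun t => MvPolynomial.eval_eq' t Q
  have e2 : ∀ t : P → ℂ, MvPolynomial.eval t (MvPolynomial.X p0 * Q)
      = ∑ d ∈ Q.support, Q.coeff d * ∏ s, t s ^ (d s + if s = p0 then 1 else 0) := by
    intro t
    rw [map_mul, MvPolynomial.eval_X, e1, Finset.mul_sum]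
    refine Finset.sum_congr rfl fun d _ => ?_
    have h2 : ∏ s, t s ^ (d s + if s = p0 then 1 else 0) = (∏ s, t s ^ d s) * t p0 := by
      simp only [pow_add, Finset.prod_mul_distrib]
      congr 1
      rw [Finset.prod_eq_single p0]
      · rw [if_pos rfl, pow_one]
      · intro s _ hs
        rw [if_neg hs, pow_zero]
      · intro h
        exact absurd (Finset.mem_univ _) h
    rw [h2]
    ring
  simp only [e1, e2]
  rw [J_eq Q.support (fun d s => d s + if s = p0 then 1 else 0) (by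
      intro d _ d' _ h
      ext s
      have := congrFun h s
      simpa using this) (fun d => Q.coeff d),
    J_eq Q.support (fun d s => d s) (by
      intro d _ d' _ h
      ext s
      exact congrFun h s) (fun d => Q.coeff d), ← mul_sub, ← Finset.sum_sub_distrib]
  refine mul_nonneg (by positivity) (Finset.sum_nonneg fun d _ => ?_)
  rw [← mul_sub]
  refine mul_nonneg (by positivity) (sub_nonneg.2 ?_)
  refine Finset.prod_le_prod (fun s _ => by positivity) fun s _ => ?_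
  have : (d s).factorial ≤ (d s + if s = p0 then 1 else 0).factorial :=
    Nat.factorial_le (Nat.le_add_right _ _)
  exact_mod_cast this

lemma fock_int {P : Type} [Fintype P] (p0 : P) (Q : MvPolynomial P ℂ) :
    Integrable (fun t : P → ℂ => ‖MvPolynomial.eval t Q‖ ^ 2 * (‖t p0‖ ^ 2 - 1) * gw t) := by
  have h1 : (fun t : P → ℂ => ‖MvPolynomial.eval t Q‖ ^ 2 * (‖t p0‖ ^ 2 - 1) * gw t)
      = fun t => ‖MvPolynomial.eval t (MvPolynomial.X p0 * Q)‖ ^ 2 * gw t
        - ‖MvPolynomial.eval t Q‖ ^ 2 * gw t := by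
    funext t
    rw [map_mul, MvPolynomial.eval_X, norm_mul]
    ring
  rw [h1]
  exact (int_sq _).sub (int_sq _)

/-- linear change of variables -/
lemma nonneg_of_comp {P : Type} [Fintype P] (M : (P → ℂ) ≃ₗ[ℂ] (P → ℂ)) (F : (P → ℂ) → ℝ)
    (h : 0 ≤ ∫ t, F (M t)) : 0 ≤ ∫ x, F x := by
  let M1 : (P → ℂ) ≃ₗ[ℝ] (P → ℂ) := M.restrictScalars ℝ
  let M' : (P → ℂ) ≃L[ℝ] (P → ℂ) := M1.toContinuousLinearEquiv
  have hdet : LinearMap.det (M1 : (P → ℂ) →ₗ[ℝ] (P → ℂ)) ≠ 0 := (LinearEquiv.isUnit_det' M1).ne_zero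
  have hmp : Measure.map (M1 : (P → ℂ) →ₗ[ℝ] (P → ℂ)) (volume : Measure (P → ℂ))
      = ENNReal.ofReal |(LinearMap.det (M1 : (P → ℂ) →ₗ[ℝ] (P → ℂ)))⁻¹| • volume :=
    Measure.map_linearMap_addHaar_eq_smul_addHaar volume hdet
  have h2 : ∫ t, F (M t) = ∫ x, F x ∂(Measure.map (M1 : (P → ℂ) →ₗ[ℝ] (P → ℂ)) volume) :=
    (M'.toHomeomorph.measurableEmbedding.integral_map F).symm
  rw [h2, hmp, integral_smul_measure, ENNReal.toReal_ofReal (abs_nonneg _), smul_eq_mul] at h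
  have hc : 0 < |(LinearMap.det (M1 : (P → ℂ) →ₗ[ℝ] (P → ℂ)))⁻¹| :=
    abs_pos.2 (inv_ne_zero hdet)
  exact nonneg_of_mul_nonneg_right h hc

lemma exists_M {P S : Type} [Fintype P] [Fintype S] (N : (P → ℂ) →ₗ[ℂ] (S → ℂ))
    (hN : Function.Injective N) (v : P → ℂ) (hv : N v ≠ 0) :
    ∃ (M : (P → ℂ) ≃ₗ[ℂ] (P → ℂ)) (p0 : P), (∀ t, ∑ s, ‖N (M t) s‖ ^ 2 = ∑ p, ‖t p‖ ^ 2) ∧
      ∀ t, ‖∑ s, N (M t) s * conj (N v s)‖ ^ 2 = (∑ s, ‖N v s‖ ^ 2) * ‖t p0‖ ^ 2 := by
  obtain ⟨p0⟩ : Nonempty P := by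
    by_contra h
    rw [not_nonempty_iff] at h
    apply hv
    rw [Subsingleton.elim v 0, map_zero]
  let N' : (P → ℂ) →ₗ[ℂ] EuclideanSpace ℂ S :=
    (WithLp.linearEquiv 2 ℂ (S → ℂ)).symm.toLinearMap ∘ₗ N
  have hN' : Function.Injective N' := (WithLp.linearEquiv 2 ℂ (S → ℂ)).symm.injective.comp hN
  let e0 : (P → ℂ) ≃ₗ[ℂ] LinearMap.range N' := LinearEquiv.ofInjective N' hN'
  have hcard : Module.finrank ℂ (LinearMap.range N') = Fintype.card P := by
    rw [← e0.finrank_eq, Module.finrank_fintype_fun_eq_card]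
  set w : LinearMap.range N' := e0 v with hw
  have hw0 : w ≠ 0 := by
    intro h
    apply hv
    have h1 : v = 0 := by
      apply e0.injective
      rw [← hw, h, map_zero]
    rw [h1, map_zero]
  have hwn : (‖w‖ : ℂ) ≠ 0 := by
    have := norm_ne_zero_iff.2 hw0
    exact_mod_cast this
  obtain ⟨b, hb⟩ := Orthonormal.exists_orthonormalBasis_extension_of_card_eq (𝕜 := ℂ)
    (E := LinearMap.range N') (ι := P) hcard (v := fun _ => ((‖w‖ : ℂ)⁻¹) • w) (s := {p0}) (by
      constructor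
      · intro i
        change ‖((‖w‖ : ℂ)⁻¹) • w‖ = 1
        rw [norm_smul, norm_inv, Complex.norm_real, norm_norm]
        exact inv_mul_cancel₀ (norm_ne_zero_iff.2 hw0)
      · intro i j hij
        exact absurd (Subsingleton.elim i j) hij)
  have hb0 : w = (‖w‖ : ℂ) • b p0 := by
    rw [hb p0 rfl, smul_smul, mul_inv_cancel₀ hwn, one_smul]
  let M : (P → ℂ) ≃ₗ[ℂ] (P → ℂ) :=
    ((WithLp.linearEquiv 2 ℂ (P → ℂ)).symm.trans b.repr.symm.toLinearEquiv).trans e0.symm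
  have hM : ∀ t, e0 (M t) = b.repr.symm ((WithLp.linearEquiv 2 ℂ (P → ℂ)).symm t) := by
    intro t
    exact e0.apply_symm_apply _
  have hM' : ∀ t, N' (M t)
      = ((b.repr.symm ((WithLp.linearEquiv 2 ℂ (P → ℂ)).symm t) : LinearMap.range N') :
        EuclideanSpace ℂ S) := by
    intro t
    rw [← hM]
    rfl
  have hw2 : ∑ s, ‖N v s‖ ^ 2 = ‖w‖ ^ 2 := by
    have h1 : ‖w‖ ^ 2 = ‖N' v‖ ^ 2 := rfl
    rw [h1, EuclideanSpace.norm_sq_eq]
    rfl
  refine ⟨M, p0, ?_, ?_⟩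
  · intro t
    have h1 : ∑ s, ‖N (M t) s‖ ^ 2 = ‖N' (M t)‖ ^ 2 := by
      rw [EuclideanSpace.norm_sq_eq]
      rfl
    rw [h1, hM', Submodule.norm_coe, LinearIsometryEquiv.norm_map, EuclideanSpace.norm_sq_eq]
    rfl
  · intro t
    have h1 : ∑ s, N (M t) s * conj (N v s) = inner ℂ (N' v) (N' (M t)) := by
      rw [PiLp.inner_apply]
      rfl
    have h2 : inner ℂ (N' v) (N' (M t)) = (‖w‖ : ℂ) * t p0 := by
      have h3 : inner ℂ (N' v) (N' (M t))
          = inner ℂ w (b.repr.symm ((WithLp.linearEquiv 2 ℂ (P → ℂ)).symm t)) := by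
        rw [hM']
        rfl
      rw [h3]
      conv_lhs => rw [hb0]
      refine (inner_smul_left (𝕜 := ℂ) (b p0) _ (‖w‖ : ℂ)).trans ?_
      rw [Complex.conj_ofReal, ← OrthonormalBasis.repr_apply_apply,
        LinearIsometryEquiv.apply_symm_apply]
      rfl
    rw [h1, h2, norm_mul, mul_pow, Complex.norm_real, norm_norm, hw2]

/-- composition with a linear map -/
lemma exists_comp {P : Type} [Fintype P] (M : (P → ℂ) ≃ₗ[ℂ] (P → ℂ)) (Q : MvPolynomial P ℂ) :
    ∃ Q' : MvPolynomial P ℂ, ∀ t, MvPolynomial.eval t Q' = MvPolynomial.eval (M t) Q := by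
  classical
  refine ⟨MvPolynomial.bind₁ (fun p => ∑ q, MvPolynomial.X q *
    MvPolynomial.C (M (fun j => if q = j then 1 else 0) p)) Q, fun t => ?_⟩
  have h1 : (fun p => MvPolynomial.eval t (∑ q, MvPolynomial.X q *
      MvPolynomial.C (M (fun j => if q = j then 1 else 0) p))) = M t := by
    funext p
    have h2 := LinearMap.pi_apply_eq_sum_univ (M : (P → ℂ) →ₗ[ℂ] (P → ℂ)) t
    have h3 := congrFun h2 p
    rw [LinearEquiv.coe_coe] at h3
    rw [h3]
    simp only [map_sum, map_mul, MvPolynomial.eval_X, MvPolynomial.eval_C, Finset.sum_apply,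
      Pi.smul_apply, smul_eq_mul]
  have h4 := MvPolynomial.eval₂Hom_bind₁ (RingHom.id ℂ) t (fun p => ∑ q, MvPolynomial.X q *
    MvPolynomial.C (M (fun j => if q = j then 1 else 0) p)) Q
  refine h4.trans ?_
  change MvPolynomial.eval (fun p => MvPolynomial.eval t (∑ q, MvPolynomial.X q *
      MvPolynomial.C (M (fun j => if q = j then 1 else 0) p))) Q = _
  rw [h1]

/-- J3: the fibre inequality -/
theorem fibre {P S : Type} [Fintype P] [DecidableEq P] [Fintype S] (N : (P → ℂ) →ₗ[ℂ] (S → ℂ))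
    (hN : Function.Injective N) (Q : MvPolynomial P ℂ) (v : P → ℂ) (Γ : ℝ)
    (hΓ : -(∑ s, ‖N v s‖ ^ 2) ≤ Γ) :
    0 ≤ ∫ x : P → ℂ, ‖MvPolynomial.eval x Q‖ ^ 2 *
      (‖∑ s, N x s * conj (N v s)‖ ^ 2 + Γ) * gw (N x) := by
  by_cases hv : N v = 0
  · have hΓ' : 0 ≤ Γ := by simpa [hv] using hΓ
    refine integral_nonneg fun x => ?_
    have : 0 < gw (N x) := Real.exp_pos _
    positivity
  · obtain ⟨M, p0, hM1, hM2⟩ := exists_M N hN v hv
    obtain ⟨Q', hQ'⟩ := exists_comp M Q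
    refine nonneg_of_comp M _ ?_
    set R : ℝ := ∑ s, ‖N v s‖ ^ 2 with hR
    have hR0 : 0 ≤ R := Finset.sum_nonneg fun s _ => by positivity
    have h1 : (fun t : P → ℂ => ‖MvPolynomial.eval (M t) Q‖ ^ 2 *
        (‖∑ s, N (M t) s * conj (N v s)‖ ^ 2 + Γ) * gw (N (M t)))
        = fun t => R * (‖MvPolynomial.eval t Q'‖ ^ 2 * (‖t p0‖ ^ 2 - 1) * gw t)
          + (Γ + R) * (‖MvPolynomial.eval t Q'‖ ^ 2 * gw t) := by
      funext t
      have h2 : gw (N (M t)) = gw t := by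
        unfold gw
        rw [hM1]
      rw [h2, hM2, hQ']
      ring
    rw [h1, integral_add ((fock_int p0 Q').const_mul R) ((int_sq Q').const_mul (Γ + R)),
      integral_const_mul, integral_const_mul]
    have h3 := fock_std p0 Q'
    have h4 : 0 ≤ ∫ t : P → ℂ, ‖MvPolynomial.eval t Q'‖ ^ 2 * gw t :=
      integral_nonneg fun t => by
        have : 0 < gw t := Real.exp_pos _
        positivity
    have h5 : 0 ≤ Γ + R := by linarith
    positivity

end Pool.Agent.TH928.GV
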