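import Pool.Agent.TH824.BK.Mats

open Polynomial IsDedekindDomain Matrix MeasureTheory
open scoped WithZero RestrictedProduct

noncomputable section
namespace TH824.BK

/-- the valuation on the completion restricted to `K`. -/
lemma J841_val (v : Pl) (x : Kx) :
    Valued.v (algebraMap Kx (Kv v) x) = v.valuation Kx x := by
  exact v.valuedAdicCompletion_eq_valuation' x

/-- there is an element with order one at `v` and zero elsewhere -/
lemma J841_exists_gen (v : Pl) : ∃ a : Kxˣ,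
    Valued.v (algebraMap Kx (Kv v) a) = WithZero.exp (-1 : ℤ) ∧
    ∀ w : Pl, w ≠ v → Valued.v (algebraMap Kx (Kv w) a) = 1 := by
  obtain ⟨P, hP⟩ : ∃ P : Rx, v.asIdeal = Ideal.span {P} :=
    (IsPrincipalIdealRing.principal v.asIdeal).principal
  have hP0 : P ≠ 0 := by
    rintro rfl
    apply v.ne_bot
    rw [hP]; simp
  have hne : algebraMap Rx Kx P ≠ 0 := by
    simpa using hP0
  refine ⟨Units.mk0 _ hne, ?_, ?_⟩
  · rw [J841_val, Units.val_mk0, HeightOneSpectrum.valuation_of_algebraMap]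
    exact v.intValuation_singleton hP0 hP
  · intro w hw
    rw [J841_val, Units.val_mk0, HeightOneSpectrum.valuation_of_algebraMap,
      HeightOneSpectrum.intValuation_eq_one_iff]
    intro hmem
    apply hw
    have hle : v.asIdeal ≤ w.asIdeal := by
      rw [hP, Ideal.span_singleton_le_iff_mem]; exact hmem
    have hmax : v.asIdeal.IsMaximal := v.isMaximal
    have := hmax.eq_of_le w.isPrime.ne_top hle
    exact (HeightOneSpectrum.ext this).symm

theorem exists_ord (e : Pl → ℤ) (he : ∀ᶠ v in Filter.cofinite, e v = 0) :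
    ∃ a : Kxˣ, ∀ v : Pl, Valued.v (algebraMap Kx (Kv v) a) = WithZero.exp (e v) := by
  choose g hg1 hg2 using J841_exists_gen
  have hfin : {v | e v ≠ 0}.Finite := by
    simpa [Filter.eventually_cofinite] using he
  have key : ∀ (s : Finset Pl), ∃ a : Kxˣ, (∀ v ∈ s,
      Valued.v (algebraMap Kx (Kv v) a) = WithZero.exp (e v)) ∧
      (∀ v ∉ s, Valued.v (algebraMap Kx (Kv v) a) = 1) := by
    intro s
    induction s using Finset.induction_on with
    | empty => exact ⟨1, by simp, by simp⟩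
    | insert u s hu ih =>
      obtain ⟨a, ha1, ha2⟩ := ih
      refine ⟨a * (g u) ^ (-(e u)), ?_, ?_⟩
      · intro v hv
        rcases Finset.mem_insert.mp hv with rfl | hv
        · rw [Units.val_mul, Units.val_zpow_eq_zpow_val, map_mul, map_mul, map_zpow₀, map_zpow₀,
            hg1, ha2 _ hu, one_mul, ← WithZero.exp_zsmul]
          simp
        · have hne : v ≠ u := by
            intro h; rw [h] at hv; exact hu hv
          rw [Units.val_mul, Units.val_zpow_eq_zpow_val, map_mul, map_mul, map_zpow₀, map_zpow₀,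
            hg2 _ _ hne, ha1 _ hv, _root_.one_zpow, mul_one]
      · intro v hv
        rw [Finset.mem_insert, not_or] at hv
        rw [Units.val_mul, Units.val_zpow_eq_zpow_val, map_mul, map_mul, map_zpow₀, map_zpow₀,
            hg2 _ _ hv.1, ha2 _ hv.2, _root_.one_zpow, mul_one]
  obtain ⟨a, ha1, ha2⟩ := key hfin.toFinset
  refine ⟨a, fun v => ?_⟩
  by_cases hv : e v = 0
  · rw [ha2 v (by simpa using hv), hv]; simp
  · exact ha1 v (by simpa using hv)

lemma J841_det_ne {F : Type} [Field F] (g : GL (Fin 2) F) :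
    (g : Matrix (Fin 2) (Fin 2) F) 0 0 * (g : Matrix (Fin 2) (Fin 2) F) 1 1 -
    (g : Matrix (Fin 2) (Fin 2) F) 0 1 * (g : Matrix (Fin 2) (Fin 2) F) 1 0 ≠ 0 := by
  rw [← Matrix.det_fin_two]
  exact g.det.ne_zero

/-- local Iwasawa decomposition, first case -/
lemma J841_iwasawa_aux {F : Type} [Field F] [Valued F ℤᵐ⁰] (g : GL (Fin 2) F)
    (h : Valued.v ((g : Matrix (Fin 2) (Fin 2) F) 1 0) ≤
      Valued.v ((g : Matrix (Fin 2) (Fin 2) F) 1 1)) :
    ∃ (a d : Fˣ) (x : F), (bmat a d x)⁻¹ * g ∈ GO F := by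
  have hdet := J841_det_ne g
  set p := (g : Matrix (Fin 2) (Fin 2) F) 0 0 with hp
  set q := (g : Matrix (Fin 2) (Fin 2) F) 0 1 with hq
  set r := (g : Matrix (Fin 2) (Fin 2) F) 1 0 with hr
  set s := (g : Matrix (Fin 2) (Fin 2) F) 1 1 with hs
  have hs0 : s ≠ 0 := by
    intro h0
    rw [h0, map_zero, le_zero_iff, map_eq_zero] at h
    apply hdet
    rw [h0, h]; ring
  have ha : (p * s - q * r) / s ≠ 0 := div_ne_zero hdet hs0
  refine ⟨Units.mk0 _ ha, Units.mk0 s hs0, q, ?_⟩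
  have hg : g = bmat (Units.mk0 _ ha) (Units.mk0 s hs0) q *
      ⟨!![1, 0; r / s, 1], !![1, 0; -(r / s), 1], by simp [Matrix.one_fin_two],
        by simp [Matrix.one_fin_two]⟩ := by
    apply Units.ext
    ext i j
    fin_cases i <;> fin_cases j
    · simp [Units.val_mul, Matrix.mul_apply, Fin.sum_univ_two, ← hp]
      field_simp
      ring
    · simp [Units.val_mul, Matrix.mul_apply, Fin.sum_univ_two, ← hq]
    · simp [Units.val_mul, Matrix.mul_apply, Fin.sum_univ_two, ← hr]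
      field_simp
    · simp [Units.val_mul, Matrix.mul_apply, Fin.sum_univ_two, ← hs]
  have : (bmat (Units.mk0 _ ha) (Units.mk0 s hs0) q)⁻¹ * g =
      ⟨!![1, 0; r / s, 1], !![1, 0; -(r / s), 1], by simp [Matrix.one_fin_two],
        by simp [Matrix.one_fin_two]⟩ := by
    conv_lhs => rw [hg]
    rw [inv_mul_cancel_left]
  rw [this]
  refine ⟨fun i j => ?_, by simp⟩
  have hv : Valued.v (r / s) ≤ 1 := by
    rw [map_div₀]
    apply div_le_one_of_le₀ h zero_le
  fin_cases i <;> fin_cases j <;> simp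
  simpa using hv

lemma J841_smat_mem {F : Type} [Field F] [Valued F ℤᵐ⁰] : (smat : GL (Fin 2) F) ∈ GO F := by
  refine ⟨fun i j => ?_, by simp [Valuation.map_neg]⟩
  fin_cases i <;> fin_cases j <;> simp

/-- local Iwasawa decomposition -/
lemma J841_iwasawa {F : Type} [Field F] [Valued F ℤᵐ⁰] (g : GL (Fin 2) F) :
    ∃ (a d : Fˣ) (x : F), (bmat a d x)⁻¹ * g ∈ GO F := by
  rcases le_total (Valued.v ((g : Matrix (Fin 2) (Fin 2) F) 1 0))
      (Valued.v ((g : Matrix (Fin 2) (Fin 2) F) 1 1)) with h | h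
  · exact J841_iwasawa_aux g h
  · obtain ⟨a, d, x, hx⟩ := J841_iwasawa_aux (g * smat) (by
      simpa [Units.val_mul, Matrix.mul_apply, Fin.sum_univ_two] using h)
    refine ⟨a, d, x, ?_⟩
    have : (bmat a d x)⁻¹ * g = ((bmat a d x)⁻¹ * (g * smat)) * smat⁻¹ := by group
    rw [this]
    exact (GO F).mul_mem hx ((GO F).inv_mem J841_smat_mem)

lemma J841_map_bmat {F E : Type} [Field F] [Field E] (φ : F →+* E) (a d : Fˣ) (x : F) :
    Matrix.GeneralLinearGroup.map φ (bmat a d x) =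
      bmat (Units.map φ a) (Units.map φ d) (φ x) := by
  apply Units.ext
  ext i j
  fin_cases i <;> fin_cases j <;> simp

lemma J841_quot {F : Type} [Field F] (A D al de : Fˣ) (be ξ : F) :
    (bmat A D ((A : F) * ξ))⁻¹ * bmat al de be =
      bmat (al / A) (de / D) ((be * D / (A * de) - ξ) * ((de : F) / D)) := by
  rw [inv_mul_eq_iff_eq_mul]
  have hA : (A : F) ≠ 0 := A.ne_zero
  have hD : (D : F) ≠ 0 := D.ne_zero
  have hal : (al : F) ≠ 0 := al.ne_zero
  have hde : (de : F) ≠ 0 := de.ne_zero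
  apply Units.ext
  ext i j
  fin_cases i <;> fin_cases j
  · simp [Units.val_mul, Matrix.mul_apply, Fin.sum_univ_two]
    field_simp
  · simp [Units.val_mul, Matrix.mul_apply, Fin.sum_univ_two]
    field_simp
    ring
  · simp [Units.val_mul, Matrix.mul_apply, Fin.sum_univ_two]
  · simp [Units.val_mul, Matrix.mul_apply, Fin.sum_univ_two]
    field_simp

lemma J841_tri_mem {F : Type} [Field F] [Valued F ℤᵐ⁰] (a d : Fˣ) (x : F)
    (ha : Valued.v (a : F) = 1) (hd : Valued.v (d : F) = 1) (hx : Valued.v x ≤ 1) :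
    bmat a d x ∈ GO F := by
  refine ⟨fun i j => ?_, ?_⟩
  · fin_cases i <;> fin_cases j
    · simpa using ha.le
    · simpa using hx
    · simp
    · simpa using hd.le
  · rw [coe_bmat, Matrix.det_fin_two_of, mul_zero, sub_zero, map_mul, ha, hd, mul_one]

theorem gfin_decomp
    (hsa : ∀ x : FiniteAdeleRing Rx Kx,
      ∃ ξ : Kx, ∀ v : Pl, Valued.v (x v - algebraMap Kx (Kv v) ξ) ≤ 1)
    (g : Gfin) : ∃ (a d : Kxˣ) (x : Kx), ∀ v : Pl,
    (Matrix.GeneralLinearGroup.map (algebraMap Kx (Kv v)) (bmat a d x))⁻¹ * g v ∈ GO (Kv v) := by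
  classical
  have hloc : ∀ v : Pl, ∃ (al de : (Kv v)ˣ) (be : Kv v), (bmat al de be)⁻¹ * g v ∈ GO (Kv v) ∧
      (g v ∈ GO (Kv v) → al = 1 ∧ de = 1 ∧ be = 0) := by
    intro v
    by_cases hv : g v ∈ GO (Kv v)
    · refine ⟨1, 1, 0, ?_, fun _ => ⟨rfl, rfl, rfl⟩⟩
      have : (bmat 1 1 0 : GL (Fin 2) (Kv v)) = 1 := by
        apply Units.ext
        simp [Matrix.one_fin_two]
      rw [this]; simpa using hv
    · obtain ⟨a, d, x, hx⟩ := J841_iwasawa (g v)
      exact ⟨a, d, x, hx, fun h => absurd h hv⟩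
  choose al de be hbe htriv using hloc
  have hev : ∀ᶠ v : Pl in Filter.cofinite, g v ∈ GO (Kv v) := g.2
  obtain ⟨a, ha⟩ := exists_ord (fun v => WithZero.log (Valued.v ((al v : Kv v)))) (by
    filter_upwards [hev] with v hv
    rw [(htriv v hv).1]; simp)
  obtain ⟨d, hd⟩ := exists_ord (fun v => WithZero.log (Valued.v ((de v : Kv v)))) (by
    filter_upwards [hev] with v hv
    rw [(htriv v hv).2.1]; simp)
  have ha' : ∀ v, Valued.v (algebraMap Kx (Kv v) a) = Valued.v ((al v : Kv v)) := by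
    intro v
    rw [ha v, WithZero.exp_log]
    exact (Valuation.ne_zero_iff _).mpr (al v).ne_zero
  have hd' : ∀ v, Valued.v (algebraMap Kx (Kv v) d) = Valued.v ((de v : Kv v)) := by
    intro v
    rw [hd v, WithZero.exp_log]
    exact (Valuation.ne_zero_iff _).mpr (de v).ne_zero
  let y : FiniteAdeleRing Rx Kx := ⟨fun v => be v * algebraMap Kx (Kv v) d /
      (algebraMap Kx (Kv v) a * de v), by
    filter_upwards [hev] with v hv
    rw [(htriv v hv).2.2]
    simp only [zero_mul, zero_div]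
    exact (v.adicCompletionIntegers Kx).zero_mem⟩
  obtain ⟨ξ, hξ⟩ := hsa y
  refine ⟨a, d, a * ξ, fun v => ?_⟩
  have hyv : y v = be v * algebraMap Kx (Kv v) d / (algebraMap Kx (Kv v) a * de v) := rfl
  have hsplit : (Matrix.GeneralLinearGroup.map (algebraMap Kx (Kv v)) (bmat a d (a * ξ)))⁻¹ * g v =
      ((Matrix.GeneralLinearGroup.map (algebraMap Kx (Kv v)) (bmat a d (a * ξ)))⁻¹ *
        bmat (al v) (de v) (be v)) * ((bmat (al v) (de v) (be v))⁻¹ * g v) := by group
  rw [hsplit]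
  refine (GO (Kv v)).mul_mem ?_ (hbe v)
  have hxi : algebraMap Kx (Kv v) ((a : Kx) * ξ) =
      ((Units.map (algebraMap Kx (Kv v) : Kx →* Kv v) a : (Kv v)ˣ) : Kv v) *
        algebraMap Kx (Kv v) ξ := by
    rw [map_mul]; rfl
  rw [J841_map_bmat, hxi, J841_quot]
  have hz : ∀ u : (Kv v)ˣ, Valued.v (u : Kv v) ≠ 0 :=
    fun u => (Valuation.ne_zero_iff _).mpr u.ne_zero
  have hal1 : Valued.v (((al v / Units.map (algebraMap Kx (Kv v) : Kx →* Kv v) a : (Kv v)ˣ)) :
      Kv v) = 1 := by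
    rw [Units.val_div_eq_div_val, map_div₀]
    have := ha' v
    rw [show ((Units.map (algebraMap Kx (Kv v) : Kx →* Kv v) a : (Kv v)ˣ) : Kv v) =
      algebraMap Kx (Kv v) a from rfl, this, div_self (hz _)]
  have hde0 : Valued.v (((de v : (Kv v)ˣ) : Kv v) / algebraMap Kx (Kv v) d) = 1 := by
    rw [map_div₀, hd' v, div_self (hz _)]
  have hde1 : Valued.v (((de v / Units.map (algebraMap Kx (Kv v) : Kx →* Kv v) d : (Kv v)ˣ)) :
      Kv v) = 1 := by
    rw [Units.val_div_eq_div_val]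
    exact hde0
  refine J841_tri_mem _ _ _ hal1 hde1 ?_
  rw [map_mul]
  have h1 := hξ v
  rw [hyv] at h1
  exact (mul_le_mul' h1 hde0.le).trans (by simp)

theorem mem_GLR (γ : GL (Fin 2) Kx)
    (h : ∀ v : Pl, Matrix.GeneralLinearGroup.map (algebraMap Kx (Kv v)) γ ∈ GO (Kv v)) :
    (∃ M : Matrix (Fin 2) (Fin 2) Rx, (γ : Matrix (Fin 2) (Fin 2) Kx) = M.map (algebraMap Rx Kx)) ∧
    (γ : Matrix (Fin 2) (Fin 2) Kx).det = 1 := by
  have hint : ∀ i j, (γ : Matrix (Fin 2) (Fin 2) Kx) i j ∈ (algebraMap Rx Kx).range := by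
    intro i j
    apply HeightOneSpectrum.mem_integers_of_valuation_le_one Kx
    intro v
    rw [← J841_val]
    exact (h v).1 i j
  have hdetv : ∀ v : Pl, v.valuation Kx (γ : Matrix (Fin 2) (Fin 2) Kx).det = 1 := by
    intro v
    rw [← J841_val, RingHom.map_det]
    exact (h v).2
  choose m hm using hint
  refine ⟨⟨Matrix.of m, ?_⟩, ?_⟩
  · ext i j
    simp [hm]
  · obtain ⟨D, hD⟩ := HeightOneSpectrum.mem_integers_of_valuation_le_one (R := Rx) Kx
      (γ : Matrix (Fin 2) (Fin 2) Kx).det (fun v => (hdetv v).le)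
    obtain ⟨E, hE⟩ := HeightOneSpectrum.mem_integers_of_valuation_le_one (R := Rx) Kx
      ((γ : Matrix (Fin 2) (Fin 2) Kx).det)⁻¹ (fun v => by rw [map_inv₀, hdetv v, inv_one])
    have hdet0 : (γ : Matrix (Fin 2) (Fin 2) Kx).det ≠ 0 := γ.det.ne_zero
    have hDE : D * E = 1 := by
      apply IsFractionRing.injective Rx Kx
      rw [map_mul, hD, hE, map_one, mul_inv_cancel₀ hdet0]
    have hu : IsUnit D := IsUnit.of_mul_eq_one E hDE
    rw [Polynomial.isUnit_iff] at hu
    obtain ⟨c, hc, hcD⟩ := hu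
    have hc1 : c = 1 := by
      have h2 : ∀ x : ZMod 2, x ≠ 0 → x = 1 := by decide
      exact h2 c hc.ne_zero
    rw [← hD, ← hcD, hc1]; simp

end TH824.BK
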